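import Pool.Agent.W845.HC.Base

/-! Project HC: almost spanning linear forests, assembly -/

set_option autoImplicit false
open scoped Classical
open Filter Topology
open scoped BigOperators

namespace Pool.Agent.W589.HC

open Pool.Agent.W845.PM Pool.Agent.W845.HC

theorem cyc_mono {V : Type} [Fintype V] (L : ℕ) {G G' : SimpleGraph V} (h : G ≤ G') : cyc L G ≤ cyc L G' := by
  unfold cyc
  apply Finset.sum_le_sum
  intro l _
  apply Finset.card_le_card
  intro f hf
  rw [Finset.mem_filter] at hf ⊢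
  exact ⟨hf.1, hf.2.1, fun i => h (hf.2.2 i)⟩

theorem exists_emb (n d : ℕ) (H : SimpleGraph (Fin n)) (hH : d ≤ H.minDegree) (v : Fin n) :
    ∃ e : Fin (n - d) ↪ Fin n, ∀ x, x ∉ Set.range e → H.Adj v x := by
  have h1 : d ≤ (H.neighborFinset v).card := by
    rw [SimpleGraph.card_neighborFinset_eq_degree]
    exact hH.trans (H.minDegree_le_degree v)
  obtain ⟨S, hS, hSc⟩ := Finset.exists_subset_card_eq h1
  have h2 : (Sᶜ : Finset (Fin n)).card = n - d := by
    rw [Finset.card_compl, hSc, Fintype.card_fin]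
  refine ⟨((Sᶜ : Finset (Fin n)).orderEmbOfFin h2).toEmbedding, ?_⟩
  intro x hx
  have h3 : x ∉ Set.range ((Sᶜ : Finset (Fin n)).orderEmbOfFin h2) := hx
  rw [Finset.range_orderEmbOfFin] at h3
  have h4 : x ∈ S := by
    by_contra hc
    exact h3 (by simpa using hc)
  exact (H.mem_neighborFinset v x).mp (hS h4)

theorem lip (hL : S_LAM) {n k : ℕ} (e : Fin k ↪ Fin n) (G G' : SimpleGraph (Fin n)) (w : Fin n)
    (h : del G w = del G' w) : |(-(lam (G.comap e) : ℝ)) - (-(lam (G'.comap e) : ℝ))| ≤ 2 := by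
  have h0 : ∀ a b, a ≠ w → b ≠ w → (G.Adj a b ↔ G'.Adj a b) := by
    intro a b ha hb
    have h1 : (del G w).Adj a b ↔ (del G' w).Adj a b := by rw [h]
    simp only [del, ha, hb, ne_eq, not_false_eq_true, and_true] at h1
    exact h1
  have e1 : (-(lam (G.comap e) : ℝ)) - (-(lam (G'.comap e) : ℝ)) = -((lam (G.comap e) : ℝ) - lam (G'.comap e)) := by
    ring
  rw [e1, abs_neg]
  by_cases hw : ∃ x, e x = w
  · obtain ⟨x, hx⟩ := hw
    apply hL.2.2.2.2.1 (Fin k) _ _ x
    ext a b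
    simp only [del, SimpleGraph.comap_adj]
    constructor
    · rintro ⟨h1, h2, h3⟩
      refine ⟨(h0 _ _ ?_ ?_).mp h1, h2, h3⟩
      · rw [← hx]; exact fun hh => h2 (e.injective hh)
      · rw [← hx]; exact fun hh => h3 (e.injective hh)
    · rintro ⟨h1, h2, h3⟩
      refine ⟨(h0 _ _ ?_ ?_).mpr h1, h2, h3⟩
      · rw [← hx]; exact fun hh => h2 (e.injective hh)
      · rw [← hx]; exact fun hh => h3 (e.injective hh)
  · have h2 : G.comap e = G'.comap e := by
      ext a b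
      simp only [SimpleGraph.comap_adj]
      apply h0
      · exact fun hh => hw ⟨a, hh⟩
      · exact fun hh => hw ⟨b, hh⟩
    rw [h2, sub_self, abs_zero]
    norm_num

theorem g1 : S_LAM → S_SUP → S_CHER → S_ECYC → S_COVER → S_DUAL → S_G1 := by
  intro hLam hSup hCher hEcyc hCover hDual a κ η C δ ha hκ hη hC hδ
  obtain ⟨D, N0, hD, hCh⟩ := hCher (κ / 2 * η / 2) (by positivity)
  set L : ℕ := ⌈16 / κ⌉₊ with hL
  have hL1 : 2 / ((L : ℝ) + 3) ≤ κ / 8 := by
    have h1 : 16 / κ ≤ (L : ℝ) := Nat.le_ceil _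
    rw [div_le_iff₀ (by positivity)]
    rw [div_le_iff₀ hκ] at h1
    nlinarith
  set K : ℝ := ∑ l ∈ Finset.range L, (C + D) ^ (l + 3) with hK
  have hK0 : 0 ≤ K := Finset.sum_nonneg fun l _ => by positivity
  -- large n
  have hev : ∀ᶠ n : ℕ in atTop, (n : ℝ) * Real.exp (-(η ^ 2 / 8 * n)) ≤ δ / 3 ∧ Real.exp (-(n : ℝ)) ≤ δ / 3 ∧
      8 * K / (κ * n) ≤ δ / 3 ∧ N0 ≤ n ∧ 1 ≤ n := by
    have t1 : Tendsto (fun n : ℕ => (n : ℝ) * Real.exp (-(η ^ 2 / 8 * n))) atTop (𝓝 0) := by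
      have h := (tendsto_rpow_mul_exp_neg_mul_atTop_nhds_zero 1 (η ^ 2 / 8) (by positivity)).comp
        (tendsto_natCast_atTop_atTop (R := ℝ))
      refine h.congr fun n => ?_
      simp only [Function.comp, Real.rpow_one, neg_mul]
    have t2 : Tendsto (fun n : ℕ => Real.exp (-(n : ℝ))) atTop (𝓝 0) :=
      Real.tendsto_exp_neg_atTop_nhds_zero.comp tendsto_natCast_atTop_atTop
    have t3 : Tendsto (fun n : ℕ => 8 * K / (κ * n)) atTop (𝓝 0) := by
      apply Tendsto.const_div_atTop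
      exact (tendsto_natCast_atTop_atTop).const_mul_atTop hκ
    have h3 : (0:ℝ) < δ / 3 := by positivity
    filter_upwards [t1.eventually_le_const h3, t2.eventually_le_const h3, t3.eventually_le_const h3,
      eventually_ge_atTop N0, eventually_ge_atTop 1] with n e1 e2 e3 e4 e5
    exact ⟨e1, e2, e3, e4, e5⟩
  obtain ⟨N, hN⟩ := eventually_atTop.mp hev
  refine ⟨N, ?_⟩
  intro n d p H hn had hdn hp0 hp1 hpC hlam hH
  obtain ⟨b1, b2, b3, hN0, hn1⟩ := hN n hn
  have hnpos : (0:ℝ) < n := by exact_mod_cast hn1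
  obtain ⟨hDn, hCh2⟩ := hCh n H hN0
  have hDn0 : 0 ≤ D / n := by positivity
  have hq0 : 0 ≤ p + D / n - p * (D / n) := by nlinarith
  have hq1 : p + D / n - p * (D / n) ≤ 1 := by nlinarith
  choose e he using exists_emb n d H hH
  have hcast : ((n - d : ℕ) : ℝ) = (n : ℝ) - d := by
    rw [Nat.cast_sub (by omega)]
  set A : Fin n → SimpleGraph (Fin n) → ℝ := fun v R =>
    if (lam (R.comap (e v)) : ℝ) < (n : ℝ) - 2 * d + η * n then 1 else 0 with hA
  set Bq : SimpleGraph (Fin n) → ℝ := fun Q => if (∀ X Y : Finset (Fin n), κ / 2 * η / 2 * n ^ 2 ≤ (arcs H X Y : ℝ) →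
    2 * (n : ℝ) ≤ (arcs (H ⊓ Q) X Y : ℝ)) then (0 : ℝ) else 1 with hBq
  -- single concentration
  have hA1 : ∀ v, EG n p (A v) ≤ Real.exp (-(η ^ 2 / 8 * n)) := by
    intro v
    have h1 := mcdT n p 2 (η * n) (fun R => -(lam (R.comap (e v)) : ℝ)) hn1 hp0 hp1 (by norm_num) (by positivity)
      (fun G G' w h => lip hLam (e v) G G' w h)
    have h2 : EG n p (fun R => -(lam (R.comap (e v)) : ℝ)) = -EG (n - d) p (fun R => (lam R : ℝ)) := by
      rw [comT (n - d) n (e v) p (fun R => -(lam R : ℝ))]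
      have := EG_mul_left (n - d) p (-1) (fun R => (lam R : ℝ))
      simpa using this
    rw [h2] at h1
    have h3 : (η * (n:ℝ)) ^ 2 / (2 * n * 2 ^ 2) = η ^ 2 / 8 * n := by field_simp; ring
    rw [h3] at h1
    refine le_trans (EG_mono hp0 hp1 fun R => ?_) h1
    simp only [hA]
    split_ifs with c1 c2
    · exact le_rfl
    · exfalso
      apply c2
      linarith
    · exact zero_le_one
    · exact le_rfl
  -- the pointwise inequality
  have hpt : ∀ R Q : SimpleGraph (Fin n), (if (1 - κ) * n ≤ (lam (H ⊔ R) : ℝ) then (0 : ℝ) else 1) ≤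
      (∑ v, A v R) + Bq Q + 8 / (κ * n) * (cyc L (R ⊔ Q) : ℝ) := by
    intro R Q
    have hA0 : ∀ v, 0 ≤ A v R := fun v => by simp only [hA]; split_ifs <;> norm_num
    have hB0 : 0 ≤ Bq Q := by simp only [hBq]; split_ifs <;> norm_num
    have hS0 : 0 ≤ ∑ v, A v R := Finset.sum_nonneg fun v _ => hA0 v
    have hc0 : 0 ≤ 8 / (κ * n) * (cyc L (R ⊔ Q) : ℝ) := by positivity
    split_ifs with h
    · positivity
    · by_cases h1 : ∃ v, (lam (R.comap (e v)) : ℝ) < (n : ℝ) - 2 * d + η * n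
      · obtain ⟨v, hv⟩ := h1
        have h2 : A v R = 1 := by simp only [hA]; rw [if_pos hv]
        have h3 : A v R ≤ ∑ v, A v R := Finset.single_le_sum (fun v _ => hA0 v) (Finset.mem_univ v)
        linarith
      · by_cases h2 : (∀ X Y : Finset (Fin n), κ / 2 * η / 2 * n ^ 2 ≤ (arcs H X Y : ℝ) →
            2 * (n : ℝ) ≤ (arcs (H ⊓ Q) X Y : ℝ))
        · push Not at h1
          have h3 := hCover n d (κ / 2) η H R Q (by positivity) hη hn1 hdn (fun v => ⟨e v, he v, h1 v⟩) h2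
          have h4 := hDual (Fin n) ((H ⊓ Q) ⊔ R) L ((1 - κ / 2) * n) h3
          have h5 : ((cyc L ((H ⊓ Q) ⊔ R) : ℕ) : ℝ) ≤ (cyc L (R ⊔ Q) : ℝ) := by
            exact_mod_cast cyc_mono L (sup_le (inf_le_right.trans le_sup_right) le_sup_left)
          have h6 : (lam ((H ⊓ Q) ⊔ R) : ℝ) ≤ (lam (H ⊔ R) : ℝ) := by
            exact_mod_cast hLam.2.2.1 (Fin n) _ _ (sup_le (inf_le_left.trans le_sup_left) le_sup_right)
          rw [Fintype.card_fin] at h4
          have h7 : 2 * (n : ℝ) / ((L:ℝ) + 3) ≤ κ / 8 * n := by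
            have := mul_le_mul_of_nonneg_right hL1 hnpos.le
            calc 2 * (n : ℝ) / ((L:ℝ) + 3) = 2 / ((L : ℝ) + 3) * n := by ring
              _ ≤ _ := this
          have h8 : κ * n / 8 ≤ (cyc L (R ⊔ Q) : ℝ) := by
            push Not at h
            nlinarith
          have h9 : 1 ≤ 8 / (κ * n) * (cyc L (R ⊔ Q) : ℝ) := by
            calc (1:ℝ) = 8 / (κ * n) * (κ * n / 8) := by field_simp
              _ ≤ _ := mul_le_mul_of_nonneg_left h8 (by positivity)
          linarith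
        · have h3 : Bq Q = 1 := by simp only [hBq]; rw [if_neg h2]
          linarith
  have hmain : EG n p (fun R => if (1 - κ) * n ≤ (lam (H ⊔ R) : ℝ) then (0 : ℝ) else 1) ≤
      (∑ v, EG n p (A v)) + EG n (D / n) Bq +
        8 / (κ * n) * EG n p (fun R => EG n (D / n) (fun Q => (cyc L (R ⊔ Q) : ℝ))) := by
    have e1 : ∀ R : SimpleGraph (Fin n), (if (1 - κ) * n ≤ (lam (H ⊔ R) : ℝ) then (0 : ℝ) else 1) ≤
        (∑ v, A v R) + EG n (D / n) Bq + 8 / (κ * n) * EG n (D / n) (fun Q => (cyc L (R ⊔ Q) : ℝ)) := by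
      intro R
      have h1 := EG_mono hDn0 hDn (hpt R)
      rw [EG_const oneT] at h1
      refine h1.trans (le_of_eq ?_)
      rw [EG_add, EG_add, EG_const oneT, EG_mul_left]
    refine (EG_mono hp0 hp1 e1).trans (le_of_eq ?_)
    rw [EG_add, EG_add, EG_sum, EG_const oneT, EG_mul_left]
  have hcyc : EG n p (fun R => EG n (D / n) (fun Q => (cyc L (R ⊔ Q) : ℝ))) ≤ K := by
    rw [hSup n p (D / n) (fun G => (cyc L G : ℝ))]
    refine (hEcyc n L _ hq0 hq1).trans (Finset.sum_le_sum fun l _ => ?_)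
    apply pow_le_pow_left₀ (by positivity)
    have h1 : (n:ℝ) * p ≤ C := by
      have := mul_le_mul_of_nonneg_left hpC hnpos.le
      rwa [mul_div_cancel₀ _ hnpos.ne'] at this
    have h2 : (n:ℝ) * (D / n) = D := by field_simp
    have h3 : 0 ≤ (n:ℝ) * (p * (D / n)) := by positivity
    nlinarith
  have hsum : ∑ v, EG n p (A v) ≤ (n:ℝ) * Real.exp (-(η ^ 2 / 8 * n)) := by
    refine (Finset.sum_le_sum fun v _ => hA1 v).trans (le_of_eq ?_)
    rw [Finset.sum_const, Finset.card_univ, Fintype.card_fin, nsmul_eq_mul]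
  have hlast : 8 / (κ * n) * EG n p (fun R => EG n (D / n) (fun Q => (cyc L (R ⊔ Q) : ℝ))) ≤ 8 * K / (κ * n) := by
    refine (mul_le_mul_of_nonneg_left hcyc (by positivity)).trans (le_of_eq ?_)
    ring
  linarith

end Pool.Agent.W589.HC
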